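import Mathlib
import Pool.Agent.TH539.StrProjMain

set_option autoImplicit false

/-! The arithmetic Kakeya inequality for vectors with structured projections. -/

open Finset
open scoped Pointwise

namespace Pool.Agent.R251.Str

/-- an additive map `ℚ^d → ℚ` that is injective on a given finite set -/
theorem exists_homQ {d : ℕ} (D : Finset (Fin d → ℚ)) :
    ∃ M : ℤ, ∀ z ∈ D, ∀ w ∈ D, ∑ i, z i * (M : ℚ) ^ (i : ℕ) = ∑ i, w i * (M : ℚ) ^ (i : ℕ) → z = w := by
  classical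
  set P : (Fin d → ℚ) → Polynomial ℚ := fun z => ∑ i, Polynomial.C (z i) * Polynomial.X ^ (i : ℕ)
    with hP
  have hcoeff : ∀ z (j : Fin d), (P z).coeff j = z j := by
    intro z j
    simp only [hP, Polynomial.finsetSum_coeff, Polynomial.coeff_C_mul, Polynomial.coeff_X_pow]
    rw [Finset.sum_eq_single j]
    · simp
    · intro i _ hi
      rw [if_neg]
      · simp
      · intro h
        exact hi (Fin.ext h.symm)
    · simp
  have hne : ∀ z, z ≠ 0 → P z ≠ 0 := by
    intro z hz h0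
    apply hz
    funext j
    rw [← hcoeff z j, h0]
    simp
  set Q : Polynomial ℚ := ∏ z ∈ D, ∏ w ∈ D, if z = w then 1 else P (z - w) with hQ
  have hQ0 : Q ≠ 0 := by
    rw [hQ]
    refine Finset.prod_ne_zero_iff.mpr fun z _ => Finset.prod_ne_zero_iff.mpr fun w _ => ?_
    split_ifs with h
    · exact one_ne_zero
    · exact hne _ (sub_ne_zero.mpr h)
  obtain ⟨M, hM⟩ : ∃ M : ℤ, Q.eval (M : ℚ) ≠ 0 := by
    by_contra hcon
    push Not at hcon
    apply hQ0
    apply Polynomial.eq_zero_of_infinite_isRoot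
    have hsub : Set.range (fun M : ℤ => (M : ℚ)) ⊆ {x : ℚ | Q.IsRoot x} := by
      rintro _ ⟨M, rfl⟩
      exact hcon M
    exact (Set.infinite_range_of_injective Int.cast_injective).mono hsub
  refine ⟨M, fun z hz w hw h => ?_⟩
  by_contra hzw
  rw [hQ, Polynomial.eval_prod] at hM
  have h1 := Finset.prod_ne_zero_iff.mp hM z hz
  rw [Polynomial.eval_prod] at h1
  have h2 := Finset.prod_ne_zero_iff.mp h1 w hw
  rw [if_neg hzw] at h2
  apply h2
  simp only [hP, Polynomial.eval_finsetSum, Polynomial.eval_mul, Polynomial.eval_C,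
    Polynomial.eval_pow, Polynomial.eval_X, Pi.sub_apply, sub_mul, Finset.sum_sub_distrib, h,
    sub_self]

/-- `P` is covered by at most `L` finite sets `D` with `|D + D| ≤ K |D|` and `|D| ≤ M`. -/
def StrV {G : Type} [DecidableEq G] [Add G] (K L M : ℝ) (P : Finset G) : Prop :=
  ∃ 𝒟 : Finset (Finset G), (𝒟.card : ℝ) ≤ L ∧
    (∀ D ∈ 𝒟, ((D + D).card : ℝ) ≤ K * D.card ∧ (D.card : ℝ) ≤ M) ∧
    ∀ x ∈ P, ∃ D ∈ 𝒟, x ∈ D

/-- the hom -/
def hom {d : ℕ} (M : ℤ) : (Fin d → ℚ) →+ ℚ where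
  toFun z := ∑ i, z i * (M : ℚ) ^ (i : ℕ)
  map_zero' := by simp
  map_add' z w := by
    rw [← Finset.sum_add_distrib]
    exact Finset.sum_congr rfl fun i _ => by simp [add_mul]

theorem str_vec (S : Finset ℚ) (hS : (-1 : ℚ) ∉ S) :
    ∃ C : ℕ, ∀ {d : ℕ} {ι : Type} (V : Finset ι), V.Nonempty → ∀ (x y : ι → Fin d → ℤ),
      (∀ v ∈ V, ∀ w ∈ V, x v - y v = x w - y w → v = w) → ∀ (K L M : ℝ),
      StrV K L M (V.image fun v => fun i => (y v i : ℚ)) →
      (∀ r ∈ S, StrV K L M (V.image fun v => fun i => (x v i : ℚ) + r * (y v i : ℚ))) →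
      (V.card : ℝ) ^ S.card ≤ (K * L) ^ C * M ^ (S.card + 1) := by
  classical
  obtain ⟨C, hC⟩ := Pool.Agent.TH539.StrProj.main1 S hS
  refine ⟨C, ?_⟩
  intro d ι V hV x y hinj K L M hy hr
  have hr' : ∀ r : ℚ, ∃ 𝒟 : Finset (Finset (Fin d → ℚ)), r ∈ S → (𝒟.card : ℝ) ≤ L ∧
      (∀ D ∈ 𝒟, ((D + D).card : ℝ) ≤ K * D.card ∧ (D.card : ℝ) ≤ M) ∧
      ∀ z ∈ (V.image fun v => fun i => (x v i : ℚ) + r * (y v i : ℚ)), ∃ D ∈ 𝒟, z ∈ D := by
    intro r
    by_cases h : r ∈ S
    · obtain ⟨𝒟, h1⟩ := hr r h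
      exact ⟨𝒟, fun _ => h1⟩
    · exact ⟨∅, fun h' => absurd h' h⟩
  choose 𝒟 h𝒟 using hr'
  obtain ⟨𝒟y, hy1, hy2, hy3⟩ := hy
  set F : Finset (Fin d → ℚ) := (V.image fun v => fun i => ((x v - y v) i : ℚ)) ∪
    (𝒟y.sup id ∪ S.sup fun r => (𝒟 r).sup id) with hF
  obtain ⟨N, hN⟩ := exists_homQ F
  set φ := hom (d := d) N with hφ
  have hφF : ∀ z ∈ F, ∀ w ∈ F, φ z = φ w → z = w := hN
  have hDy : ∀ D ∈ 𝒟y, D ⊆ F := by
    intro D hD
    refine subset_trans ?_ Finset.subset_union_right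
    refine subset_trans ?_ Finset.subset_union_left
    exact Finset.le_sup (f := id) hD
  have hDr : ∀ r ∈ S, ∀ D ∈ 𝒟 r, D ⊆ F := by
    intro r hr D hD
    refine subset_trans ?_ Finset.subset_union_right
    refine subset_trans ?_ Finset.subset_union_right
    have h1 : D ≤ (𝒟 r).sup id := Finset.le_sup (f := id) hD
    have h2 : (𝒟 r).sup id ≤ S.sup fun r => (𝒟 r).sup id :=
      Finset.le_sup (f := fun r => (𝒟 r).sup id) hr
    exact h1.trans h2
  -- structured sets are mapped to structured sets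
  have key : ∀ (P : Finset (Fin d → ℚ)) (𝒠 : Finset (Finset (Fin d → ℚ))), (𝒠.card : ℝ) ≤ L →
      (∀ D ∈ 𝒠, ((D + D).card : ℝ) ≤ K * D.card ∧ (D.card : ℝ) ≤ M) →
      (∀ z ∈ P, ∃ D ∈ 𝒠, z ∈ D) → (∀ D ∈ 𝒠, D ⊆ F) →
      Pool.Agent.TH539.StrProj.Structured K L M (P.image φ) := by
    intro P 𝒠 h1 h2 h3 h4
    refine ⟨𝒠.image fun D => D.image φ, ?_, ?_, ?_⟩
    · refine le_trans ?_ h1
      exact_mod_cast Finset.card_image_le
    · intro D' hD'
      obtain ⟨D, hD, rfl⟩ := Finset.mem_image.1 hD'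
      have hcard : (D.image φ).card = D.card := by
        apply Finset.card_image_of_injOn
        intro z hz w hw hzw
        exact hφF z (h4 D hD hz) w (h4 D hD hw) hzw
      rw [hcard]
      refine ⟨?_, (h2 D hD).2⟩
      refine le_trans ?_ (h2 D hD).1
      rw [← Finset.image_add]
      exact_mod_cast Finset.card_image_le
    · intro z hz
      obtain ⟨z', hz', rfl⟩ := Finset.mem_image.1 hz
      obtain ⟨D, hD, hzD⟩ := h3 z' hz'
      exact ⟨D.image φ, Finset.mem_image_of_mem _ hD, Finset.mem_image_of_mem _ hzD⟩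
  set ψ : (Fin d → ℤ) → ℤ := fun z => ∑ i, z i * N ^ (i : ℕ) with hψ
  have hψφ : ∀ z : Fin d → ℤ, ((ψ z : ℤ) : ℚ) = φ (fun i => (z i : ℚ)) := by
    intro z
    rw [hψ, hφ]
    simp only [hom, AddMonoidHom.coe_mk, ZeroHom.coe_mk]
    push_cast
    rfl
  set A : Finset (ℤ × ℤ) := V.image fun v => (ψ (x v), ψ (y v)) with hA
  have hAne : A.Nonempty := hV.image _
  have e1 : Pool.Agent.H217R3.AK.projInf A = (V.image fun v => fun i => (y v i : ℚ)).image φ := by
    unfold Pool.Agent.H217R3.AK.projInf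
    rw [hA, Finset.image_image, Finset.image_image]
    apply Finset.image_congr
    intro v _
    simp only [Function.comp]
    exact hψφ (y v)
  have e2 : ∀ r : ℚ, Pool.Agent.H217R3.AK.proj r A =
      (V.image fun v => fun i => (x v i : ℚ) + r * (y v i : ℚ)).image φ := by
    intro r
    unfold Pool.Agent.H217R3.AK.proj
    rw [hA, Finset.image_image, Finset.image_image]
    apply Finset.image_congr
    intro v _
    simp only [Function.comp]
    rw [hψφ, hψφ, hφ]
    simp only [hom, AddMonoidHom.coe_mk, ZeroHom.coe_mk]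
    rw [Finset.mul_sum, ← Finset.sum_add_distrib]
    exact Finset.sum_congr rfl fun i _ => by ring
  have hmain := hC A hAne K L M (by rw [e1]; exact key _ 𝒟y hy1 hy2 hy3 hDy) (by
    intro r hr
    rw [e2]
    obtain ⟨h1, h2, h3⟩ := h𝒟 r hr
    exact key _ (𝒟 r) h1 h2 h3 (hDr r hr))
  refine le_trans (le_of_eq ?_) hmain
  congr 2
  rw [e2, Finset.image_image]
  symm
  apply Finset.card_image_of_injOn
  intro v hv w hw hvw
  simp only [Function.comp] at hvw
  have hmemF : ∀ v ∈ V, (fun i => (x v i : ℚ) + (-1) * (y v i : ℚ)) ∈ F := by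
    intro v hv
    apply Finset.mem_union_left
    refine Finset.mem_image.2 ⟨v, hv, ?_⟩
    funext i
    simp only [Pi.sub_apply]
    push_cast
    ring
  have h1 := hφF _ (hmemF v hv) _ (hmemF w hw) hvw
  apply hinj v hv w hw
  funext i
  have h2 : (x v i : ℚ) + (-1) * (y v i : ℚ) = (x w i : ℚ) + (-1) * (y w i : ℚ) := congrFun h1 i
  have h3 : ((x v i - y v i : ℤ) : ℚ) = ((x w i - y w i : ℤ) : ℚ) := by
    push_cast
    linarith
  simp only [Pi.sub_apply]
  exact_mod_cast h3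

end Pool.Agent.R251.Str
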