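import Pool.Agent.R251.Str.Main

set_option autoImplicit false

/-! Compact Kakeya sets with slices of small doubling. -/

open MeasureTheory Set
open scoped Pointwise ENNReal

namespace Pool.Agent.R251.Str

open Pool.Agent.W46.KK

variable {d : ℕ}

/-- the union of the neighbourhoods of the slices -/
def nb (K : Set (EuclideanSpace ℝ (Fin (d + 1)))) (r : ℝ) : Set (ℝ × (Fin d → ℝ)) :=
  {q | q.2 ∈ Metric.thickening r (slc K q.1)}

theorem continuous_pt : Continuous (fun q : ℝ × (Fin d → ℝ) =>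
    (WithLp.toLp 2 (Fin.cons q.1 q.2 : Fin (d + 1) → ℝ) : EuclideanSpace ℝ (Fin (d + 1)))) := by
  apply (PiLp.continuous_toLp 2 _).comp
  apply continuous_pi
  intro i
  refine Fin.cases ?_ (fun j => ?_) i
  · simp only [Fin.cons_zero]; exact continuous_fst
  · simp only [Fin.cons_succ]; exact (continuous_apply j).comp continuous_snd

theorem measurable_nb {K : Set (EuclideanSpace ℝ (Fin (d + 1)))} (hK : IsCompact K) (r : ℝ) :
    MeasurableSet (nb K r) := by
  set g : EuclideanSpace ℝ (Fin (d + 1)) × (Fin d → ℝ) → ℝ × (Fin d → ℝ) :=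
    fun q => (q.1 0, (fun i => q.1 (Fin.succ i)) + q.2) with hg
  have hgc : Continuous g := by
    rw [hg]
    refine Continuous.prodMk (by fun_prop) ?_
    apply Continuous.add _ continuous_snd
    apply continuous_pi
    intro i
    fun_prop
  have heq : nb K r = ⋃ n : ℕ, g '' (K ×ˢ Metric.closedBall (0 : Fin d → ℝ) (r - 1 / ((n:ℝ) + 1))) := by
    ext ⟨t, y⟩
    constructor
    · intro h
      obtain ⟨y', hy', hd⟩ := Metric.mem_thickening_iff.1 (show y ∈ Metric.thickening r (slc K t) from h)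
      obtain ⟨n, hn⟩ := exists_nat_one_div_lt (sub_pos.2 hd)
      refine mem_iUnion.2 ⟨n, (WithLp.toLp 2 (Fin.cons t y' : Fin (d + 1) → ℝ), y - y'),
        ⟨hy', ?_⟩, ?_⟩
      · rw [Metric.mem_closedBall, dist_zero_right, ← dist_eq_norm]
        linarith
      · rw [hg]
        ext i
        · rfl
        · show y' i + (y i - y' i) = y i
          ring
    · intro h
      obtain ⟨n, ⟨x, u⟩, ⟨hx, hu⟩, he⟩ := mem_iUnion.1 h
      rw [hg, Prod.mk.injEq] at he
      obtain ⟨h1, h2⟩ := he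
      show y ∈ Metric.thickening r (slc K t)
      rw [Metric.mem_thickening_iff]
      refine ⟨fun i => x (Fin.succ i), ?_, ?_⟩
      · show WithLp.toLp 2 (Fin.cons t (fun i => x (Fin.succ i)) : Fin (d + 1) → ℝ) ∈ K
        convert hx using 1
        ext i
        refine Fin.cases ?_ (fun j => ?_) i
        · exact h1.symm
        · rfl
      · rw [← h2, dist_eq_norm, add_sub_cancel_left]
        have h3 : ‖u‖ ≤ r - 1 / ((n:ℝ) + 1) := by
          have h4 : u ∈ Metric.closedBall (0 : Fin d → ℝ) (r - 1 / ((n:ℝ) + 1)) := hu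
          rwa [mem_closedBall_zero_iff] at h4
        have : (0:ℝ) < 1 / ((n:ℝ) + 1) := by positivity
        linarith
  rw [heq]
  refine MeasurableSet.iUnion fun n => ?_
  exact ((hK.prod (isCompact_closedBall _ _)).image hgc).measurableSet

theorem volume_nb_le (K : Set (EuclideanSpace ℝ (Fin (d + 1)))) {δ : ℝ} (hδ : 0 < δ) :
    volume (nb K (δ / (d + 1))) ≤ volume (Metric.thickening δ K) := by
  rw [← (eqv_mp d).symm.measure_preimage_equiv]
  apply measure_mono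
  rintro ⟨t, y⟩ h
  obtain ⟨y', hy', hd⟩ := Metric.mem_thickening_iff.1
    (show y ∈ Metric.thickening (δ / (d + 1)) (slc K t) from h)
  rw [Set.mem_preimage, eqv_symm, Metric.mem_thickening_iff]
  refine ⟨_, hy', ?_⟩
  have hd1 : (0:ℝ) < (d:ℝ) + 1 := by positivity
  rw [EuclideanSpace.dist_eq, Fin.sum_univ_succ]
  have hsum : ∑ i : Fin d, dist (y i) (y' i) ^ 2 ≤ d * (δ / (d + 1)) ^ 2 := by
    calc _ ≤ ∑ _i : Fin d, (δ / ((d:ℝ) + 1)) ^ 2 := by
          refine Finset.sum_le_sum fun i _ => ?_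
          exact pow_le_pow_left₀ dist_nonneg ((dist_le_pi_dist y y' i).trans hd.le) 2
      _ = d * (δ / (d + 1)) ^ 2 := by
        rw [Finset.sum_const, Finset.card_univ, Fintype.card_fin, nsmul_eq_mul]
  have hlt : (d : ℝ) * (δ / (d + 1)) ^ 2 < δ ^ 2 := by
    rw [div_pow, ← mul_div_assoc, div_lt_iff₀ (by positivity)]
    have hdnn : (0 : ℝ) ≤ d := Nat.cast_nonneg d
    have hr2 : 0 < δ ^ 2 := by positivity
    nlinarith [mul_pos hr2 (by nlinarith : (0 : ℝ) < ((d : ℝ) + 1) ^ 2 - d)]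
  calc _ ≤ √((d : ℝ) * (δ / (d + 1)) ^ 2) := by
        apply Real.sqrt_le_sqrt
        simp only [Fin.cons_zero, Fin.cons_succ, dist_self]
        linarith
    _ < δ := by
        rw [Real.sqrt_lt' hδ]
        exact hlt

theorem doubling {K : Set (EuclideanSpace ℝ (Fin (d + 1)))} (hKc : IsCompact K)
    (hK : HasSegments K)
    (hD : ∀ γ : ℝ, 0 < γ → ∃ C : ℝ, ∀ δ : ℝ, 0 < δ → δ < 1 → ∀ t : ℝ,
      volume (Metric.thickening δ (slc K t + slc K t)) ≤
        ENNReal.ofReal (C * δ ^ (-γ)) * volume (Metric.thickening δ (slc K t)))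
    (ε : ℝ) (hε : 0 < ε) :
    ∃ c' : ℝ, 0 < c' ∧ ∀ δ : ℝ, 0 < δ → δ < 1 →
      ENNReal.ofReal (c' * δ ^ ε) ≤ volume (Metric.thickening δ K) := by
  obtain ⟨k, hk⟩ := exists_nat_gt (2 * (d : ℝ) / ε)
  obtain ⟨κ, γ₀, C, hκ, hγ₀, hmain⟩ := one_scale d k
  set γ : ℝ := ε / (2 * ((C:ℝ) + 1)) with hγdef
  have hγ : 0 < γ := by positivity
  obtain ⟨Cγ, hCγ⟩ := hD γ hγ
  set B : ℝ := max Cγ 1 with hB
  have hB1 : 1 ≤ B := le_max_right _ _
  have hB0 : 0 < B := by linarith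
  have hk1 : (0:ℝ) < (k:ℝ) + 1 := by positivity
  have hd1 : (0:ℝ) < (d:ℝ) + 1 := by positivity
  have hexp : (d:ℝ) / (k + 1) + γ * C ≤ ε := by
    have h1 : (d:ℝ) / (k + 1) ≤ ε / 2 := by
      rw [div_lt_iff₀ hε] at hk
      rw [div_le_iff₀ hk1]
      nlinarith
    have h2 : γ * ((C:ℝ) + 1) = ε / 2 := by
      rw [hγdef]; field_simp
    nlinarith
  set e : ℝ := (d:ℝ) / (k + 1) with he
  refine ⟨κ * (1 / 2) ^ e * (1 / ((d:ℝ) + 1)) ^ (e + γ * C) / B ^ C, by positivity, ?_⟩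
  intro δ hδ hδ1
  set s : ℝ := δ / (d + 1) with hs
  have hs0 : 0 < s := by positivity
  have hs1 : s < 1 := by
    rw [hs, div_lt_one hd1]
    have : (0:ℝ) ≤ d := Nat.cast_nonneg d
    linarith
  set Q : ℝ := B * s ^ (-γ) with hQ
  have hsγ : 1 ≤ s ^ (-γ) := Real.one_le_rpow_of_pos_of_le_one_of_nonpos hs0 hs1.le (by linarith)
  have hQ1 : 1 ≤ Q := one_le_mul_of_one_le_of_one_le hB1 hsγ
  set m : ℝ → ℝ≥0∞ := fun t => volume (Prod.mk t ⁻¹' nb K s) with hm
  have hmm : Measurable m := measurable_measure_prodMk_left (measurable_nb hKc s)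
  have hpre : ∀ t, Prod.mk t ⁻¹' nb K s = Metric.thickening s (slc K t) := fun t => rfl
  have h1 := hmain K hK (s / 2) (by positivity) univ m Q hQ1 hmm (by simp) (by
    intro t _
    refine ⟨1, fun _ => slc K t, by exact_mod_cast hQ1, fun y hy => mem_iUnion.2 ⟨0, hy⟩, ?_⟩
    intro _
    rw [show 2 * (s / 2) = s by ring]
    refine ⟨(hCγ s hs0 hs1 t).trans ?_, le_of_eq ?_⟩
    · gcongr
      rw [hQ]
      gcongr
      exact le_max_left _ _
    · rw [hm]
      simp only [hpre])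
  have h2 : ∫⁻ t, m t = volume (nb K s) := by
    rw [Measure.volume_eq_prod, Measure.prod_apply (measurable_nb hKc s)]
  rw [h2] at h1
  refine le_trans (ENNReal.ofReal_le_ofReal ?_) (h1.trans (volume_nb_le K hδ))
  have e1 : κ * (s / 2) ^ e / Q ^ C = κ * (1 / 2) ^ e * s ^ (e + γ * C) / B ^ C := by
    rw [hQ, mul_pow, show s / 2 = s * (1 / 2) by ring, Real.mul_rpow hs0.le (by norm_num),
      ← Real.rpow_natCast (s ^ (-γ)), ← Real.rpow_mul hs0.le, Real.rpow_add hs0,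
      show -γ * (C:ℝ) = -(γ * C) by ring, Real.rpow_neg hs0.le (γ * C)]
    have : 0 < s ^ (γ * C) := by positivity
    field_simp
  rw [e1, hs, show δ / ((d:ℝ) + 1) = (1 / ((d:ℝ) + 1)) * δ by ring,
    Real.mul_rpow (by positivity) hδ.le]
  have h3 : δ ^ ε ≤ δ ^ (e + γ * C) := Real.rpow_le_rpow_of_exponent_ge hδ hδ1.le hexp
  have h4 : 0 < κ * (1 / 2) ^ e * (1 / ((d:ℝ) + 1)) ^ (e + γ * C) / B ^ C := by positivity
  calc κ * (1 / 2) ^ e * (1 / ((d:ℝ) + 1)) ^ (e + γ * C) / B ^ C * δ ^ ε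
      ≤ κ * (1 / 2) ^ e * (1 / ((d:ℝ) + 1)) ^ (e + γ * C) / B ^ C * δ ^ (e + γ * C) := by gcongr
    _ = _ := by ring

end Pool.Agent.R251.Str
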