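import Pool.Agent.R251.Str.Arith
import Pool.Agent.W46.KK.Final

set_option autoImplicit false

/-! Rounded families of lines with structured positions. -/

open Finset
open scoped Pointwise

namespace Pool.Agent.R251.Str

open Pool.Agent.W46.KK

theorem StrV.mono {G : Type} [DecidableEq G] [Add G] {K L M : ℝ} {P : Finset G}
    (h : StrV K L M P) {K' L' M' : ℝ} (hK : K ≤ K') (hL : L ≤ L') (hM : M ≤ M') : StrV K' L' M' P := by
  obtain ⟨𝒟, h1, h2, h3⟩ := h
  refine ⟨𝒟, h1.trans hL, fun D hD => ⟨(h2 D hD).1.trans ?_, (h2 D hD).2.trans hM⟩, h3⟩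
  gcongr

/-- affine images -/
theorem StrV.aff {d : ℕ} {K L M : ℝ} {P0 : Finset (Fin d → ℤ)} (h : StrV K L M P0)
    (T : Finset (Fin d → ℚ)) {lam : ℚ} (hlam : lam ≠ 0) (P : Finset (Fin d → ℚ))
    (hP : ∀ x ∈ P, ∃ o ∈ T, ∃ z ∈ P0, x = fun i => o i + lam * (z i : ℚ)) :
    StrV K (T.card * L) M P := by
  classical
  obtain ⟨𝒟, h1, h2, h3⟩ := h
  set ψ : (Fin d → ℚ) → (Fin d → ℤ) → Fin d → ℚ := fun o z i => o i + lam * (z i : ℚ) with hψ
  have hinj : ∀ o, Function.Injective (ψ o) := by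
    intro o z w hzw
    funext i
    have := congrFun hzw i
    simp only [hψ, add_right_inj] at this
    exact_mod_cast mul_left_cancel₀ hlam this
  refine ⟨(T ×ˢ 𝒟).image fun q => q.2.image (ψ q.1), ?_, ?_, ?_⟩
  · calc (((T ×ˢ 𝒟).image fun q => q.2.image (ψ q.1)).card : ℝ) ≤ ((T ×ˢ 𝒟).card : ℝ) := by
          exact_mod_cast Finset.card_image_le
      _ = T.card * 𝒟.card := by rw [Finset.card_product]; push_cast; rfl
      _ ≤ T.card * L := by gcongr
  · intro D' hD'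
    obtain ⟨⟨o, D⟩, hq, rfl⟩ := Finset.mem_image.1 hD'
    have hD := (Finset.mem_product.1 hq).2
    have hcard : (D.image (ψ o)).card = D.card := Finset.card_image_of_injective _ (hinj o)
    simp only [hcard]
    refine ⟨?_, (h2 D hD).2⟩
    refine le_trans ?_ (h2 D hD).1
    have hsub : D.image (ψ o) + D.image (ψ o) ⊆ (D + D).image (ψ (fun i => 2 * o i)) := by
      intro x hx
      obtain ⟨a, ha, b, hb, rfl⟩ := Finset.mem_add.1 hx
      obtain ⟨z, hz, rfl⟩ := Finset.mem_image.1 ha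
      obtain ⟨w, hw, rfl⟩ := Finset.mem_image.1 hb
      refine Finset.mem_image.2 ⟨z + w, Finset.add_mem_add hz hw, ?_⟩
      funext i
      simp only [hψ, Pi.add_apply]
      push_cast
      ring
    exact_mod_cast (Finset.card_le_card hsub).trans Finset.card_image_le
  · intro x hx
    obtain ⟨o, ho, z, hz, rfl⟩ := hP x hx
    obtain ⟨D, hD, hzD⟩ := h3 z hz
    exact ⟨D.image (ψ o), Finset.mem_image.2 ⟨(o, D), Finset.mem_product.2 ⟨ho, hD⟩, rfl⟩,
      Finset.mem_image_of_mem _ hzD⟩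

/-- the offsets -/
theorem slope_eq {d : ℕ} {δ : ℝ} (p : (Fin d → ℝ) → Fin d → ℝ) (t₀ η : ℝ) (r : ℚ) (hr : r ≠ -1)
    (v : Fin d → ℝ) :
    ∃ o : Fin d → ℤ, (∀ i, |o i| ≤ offs r) ∧
      (fun i => ((pos δ p t₀ v i : ℤ) : ℚ) + r * ((pos δ p (t₀ + η) v i : ℤ) : ℚ)) =
      fun i => ((o i : ℚ) / r.den) +
        (1 + r) * ((pos δ p (t₀ + (r : ℝ) / (1 + r) * η) v i : ℤ) : ℚ) := by
  have hr1 : (1 + (r : ℝ)) ≠ 0 := by
    intro h
    apply hr
    have : (r : ℝ) = ((-1 : ℚ) : ℝ) := by push_cast; linarith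
    exact_mod_cast this
  have hden : (0 : ℝ) < r.den := by exact_mod_cast r.den_pos
  have hdenQ : (0 : ℚ) < r.den := by exact_mod_cast r.den_pos
  have hrnum : (r : ℝ) * r.den = r.num := by
    have := Rat.mul_den_eq_num r
    exact_mod_cast this
  set tr := t₀ + (r : ℝ) / (1 + r) * η with htr
  refine ⟨fun i => (r.den : ℤ) * pos δ p t₀ v i + r.num * pos δ p (t₀ + η) v i
      - ((r.den : ℤ) + r.num) * pos δ p tr v i, ?_, ?_⟩
  · intro i
    set a : ℝ := (p v i + t₀ * v i) / δ with ha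
    set b : ℝ := (p v i + (t₀ + η) * v i) / δ with hb
    set e : ℝ := (p v i + tr * v i) / δ with he
    have hlin : (r.den : ℝ) * a + r.num * b = ((r.den : ℝ) + r.num) * e := by
      rw [← hrnum, ha, hb, he, htr]
      by_cases hδ : δ = 0
      · simp [hδ]
      · field_simp
        ring
    have e1 : (⌊a⌋ : ℝ) ≤ a := Int.floor_le a
    have e2 : a < ⌊a⌋ + 1 := Int.lt_floor_add_one a
    have e3 : (⌊b⌋ : ℝ) ≤ b := Int.floor_le b
    have e4 : b < ⌊b⌋ + 1 := Int.lt_floor_add_one b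
    have e5 : (⌊e⌋ : ℝ) ≤ e := Int.floor_le e
    have e6 : e < ⌊e⌋ + 1 := Int.lt_floor_add_one e
    have hval : ((((r.den : ℤ) * pos δ p t₀ v i + r.num * pos δ p (t₀ + η) v i
      - ((r.den : ℤ) + r.num) * pos δ p tr v i : ℤ)) : ℝ) = -(r.den : ℝ) * (a - ⌊a⌋)
        - r.num * (b - ⌊b⌋) + ((r.den : ℝ) + r.num) * (e - ⌊e⌋) := by
      simp only [pos, fl]
      push_cast
      rw [← ha, ← hb, ← he]
      linarith [hlin]
    have hle : |((((r.den : ℤ) * pos δ p t₀ v i + r.num * pos δ p (t₀ + η) v i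
      - ((r.den : ℤ) + r.num) * pos δ p tr v i : ℤ)) : ℝ)| ≤ (offs r : ℝ) := by
      rw [hval]
      unfold offs
      push_cast
      have f1 : |(-(r.den : ℝ)) * (a - ⌊a⌋)| ≤ r.den := by
        rw [abs_mul, abs_neg, abs_of_pos hden]
        have : |a - ⌊a⌋| ≤ 1 := abs_le.mpr ⟨by linarith, by linarith⟩
        nlinarith
      have f2 : |(r.num : ℝ) * (b - ⌊b⌋)| ≤ |(r.num : ℝ)| := by
        rw [abs_mul]
        have : |b - ⌊b⌋| ≤ 1 := abs_le.mpr ⟨by linarith, by linarith⟩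
        nlinarith [abs_nonneg (r.num : ℝ)]
      have f3 : |((r.den : ℝ) + r.num) * (e - ⌊e⌋)| ≤ |(r.den : ℝ) + r.num| := by
        rw [abs_mul]
        have : |e - ⌊e⌋| ≤ 1 := abs_le.mpr ⟨by linarith, by linarith⟩
        nlinarith [abs_nonneg ((r.den : ℝ) + r.num)]
      calc |-(r.den : ℝ) * (a - ⌊a⌋) - r.num * (b - ⌊b⌋) + ((r.den : ℝ) + r.num) * (e - ⌊e⌋)|
          ≤ |-(r.den : ℝ) * (a - ⌊a⌋) - r.num * (b - ⌊b⌋)|
            + |((r.den : ℝ) + r.num) * (e - ⌊e⌋)| := abs_add_le _ _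
        _ ≤ (|-(r.den : ℝ) * (a - ⌊a⌋)| + |r.num * (b - ⌊b⌋)|)
            + |((r.den : ℝ) + r.num) * (e - ⌊e⌋)| := by gcongr; exact abs_sub _ _
        _ ≤ _ := by linarith
    exact_mod_cast hle
  · funext i
    have hrQ : r * r.den = r.num := Rat.mul_den_eq_num r
    push_cast
    rw [← hrQ]
    field_simp
    ring

/-- **Core estimate for structured positions.** -/
theorem core (S : Finset ℚ) (hS : (-1 : ℚ) ∉ S) (d : ℕ) :
    ∃ (C : ℕ) (Q : ℝ), 1 ≤ Q ∧ ∀ (δ : ℝ), 0 < δ → ∀ (V : Finset (Fin d → ℝ)), V.Nonempty →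
      ∀ (p : (Fin d → ℝ) → Fin d → ℝ) (t₀ η : ℝ), 0 < η →
      (∀ v ∈ V, ∀ w ∈ V, v ≠ w → ∃ i, 2 * δ / η ≤ |v i - w i|) → ∀ K L M : ℝ, 1 ≤ L →
      StrV K L M (V.image (pos δ p (t₀ + η))) →
      (∀ r ∈ S, StrV K L M (V.image (pos δ p (t₀ + (r : ℝ) / (1 + r) * η)))) →
      (V.card : ℝ) ^ S.card ≤ (K * (Q * L)) ^ C * M ^ (S.card + 1) := by
  classical
  obtain ⟨C, hC⟩ := str_vec S hS
  set T : ℚ → Finset (Fin d → ℚ) := fun r =>
    (Fintype.piFinset fun _ : Fin d => Finset.Icc (-offs r) (offs r)).image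
      fun o => fun i => (o i : ℚ) / r.den with hT
  set Q : ℝ := 1 + ∑ r ∈ S, ((T r).card : ℝ) with hQ
  have hsum : 0 ≤ ∑ r ∈ S, ((T r).card : ℝ) := Finset.sum_nonneg fun _ _ => Nat.cast_nonneg _
  have hQ1 : 1 ≤ Q := by rw [hQ]; linarith
  refine ⟨C, Q, hQ1, ?_⟩
  intro δ hδ V hV p t₀ η hη hsep K L M hL h0 hr
  have hL0 : 0 ≤ L := by linarith
  refine hC V hV (pos δ p t₀) (pos δ p (t₀ + η)) ?_ K (Q * L) M ?_ ?_
  · intro v hv w hw hvw
    by_contra hne
    exact pos_inj hδ p t₀ η hη v w (hsep v hv w hw hne) hvw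
  · have h1 := h0.aff {0} (lam := 1) one_ne_zero
      (V.image fun v => fun i => ((pos δ p (t₀ + η) v i : ℤ) : ℚ)) (by
        intro x hx
        obtain ⟨v, hv, rfl⟩ := Finset.mem_image.1 hx
        exact ⟨0, Finset.mem_singleton_self _, _, Finset.mem_image_of_mem _ hv, by
          funext i; simp⟩)
    refine h1.mono le_rfl ?_ le_rfl
    rw [Finset.card_singleton, Nat.cast_one]
    exact mul_le_mul_of_nonneg_right hQ1 hL0
  · intro r hr'
    have hr1 : r ≠ -1 := fun h' => hS (h' ▸ hr')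
    have h1 := (hr r hr').aff (T r) (lam := 1 + r) (by
        intro h
        apply hr1
        linarith)
      (V.image fun v => fun i => ((pos δ p t₀ v i : ℤ) : ℚ) + r * ((pos δ p (t₀ + η) v i : ℤ) : ℚ))
      (by
        intro x hx
        obtain ⟨v, hv, rfl⟩ := Finset.mem_image.1 hx
        obtain ⟨o, ho, he⟩ := slope_eq (δ := δ) p t₀ η r hr1 v
        refine ⟨fun i => (o i : ℚ) / r.den, ?_, _, Finset.mem_image_of_mem _ hv, he⟩
        rw [hT]
        refine Finset.mem_image.2 ⟨o, ?_, rfl⟩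
        rw [Fintype.mem_piFinset]
        intro i
        rw [Finset.mem_Icc]
        exact abs_le.mp (ho i))
    refine h1.mono le_rfl ?_ le_rfl
    have h2 := Finset.single_le_sum (f := fun r : ℚ => ((T r).card : ℝ))
      (fun r _ => Nat.cast_nonneg _) hr'
    have h3 : ((T r).card : ℝ) ≤ Q := by rw [hQ]; linarith
    exact mul_le_mul_of_nonneg_right h3 hL0

end Pool.Agent.R251.Str
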