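import Pool.Agent.R251.Str.Core

set_option autoImplicit false

/-! Structured sets and their roundings. -/

open Finset MeasureTheory Set
open scoped Pointwise ENNReal

namespace Pool.Agent.R251.Str

open Pool.Agent.W46.KK

variable {d : ℕ}

/-- rounded sets are not larger than neighbourhoods -/
theorem card_le_vol {h : ℝ} (hh : 0 < h) (D : Set (Fin d → ℝ)) (W : Finset (Fin d → ℤ))
    (hW : ∀ z ∈ W, z ∈ fl h '' D) :
    ((W.card : ℕ) : ℝ≥0∞) * ENNReal.ofReal h ^ d ≤ volume (Metric.thickening (2 * h) D) := by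
  classical
  choose! f hf1 hf2 using hW
  have h1 := card_mul_le hh W f (Metric.thickening (2 * h) D) (by
    intro z hz y hy
    rw [Metric.mem_thickening_iff]
    refine ⟨f z, hf1 z hz, ?_⟩
    have : dist y (f z) ≤ h := by
      rw [dist_pi_le_iff hh.le]
      intro i
      rw [Real.dist_eq]
      exact hy i
    linarith)
  have h2 : (W.image fun v => fl h (f v)) = W := by
    ext z
    constructor
    · intro hz
      obtain ⟨w, hw, rfl⟩ := Finset.mem_image.1 hz
      rw [hf2 w hw]; exact hw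
    · intro hz
      exact Finset.mem_image.2 ⟨z, hz, hf2 z hz⟩
  rwa [h2] at h1

theorem finite_of_vol {h : ℝ} (hh : 0 < h) (D : Set (Fin d → ℝ))
    (hD : volume (Metric.thickening (2 * h) D) ≠ ∞) : (fl h '' D).Finite := by
  by_contra hinf
  rw [← Set.Infinite] at hinf
  apply hD
  refine ENNReal.eq_top_of_forall_nnreal_le fun r => ?_
  have hpos : 0 < ENNReal.ofReal h ^ d := by
    apply ENNReal.pow_pos
    exact ENNReal.ofReal_pos.2 hh
  have htop : ENNReal.ofReal h ^ d ≠ ∞ := ENNReal.pow_ne_top ENNReal.ofReal_ne_top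
  obtain ⟨N, hN⟩ := ENNReal.exists_nat_gt (ENNReal.div_ne_top (ENNReal.coe_ne_top (r := r)) hpos.ne')
  obtain ⟨W, hW1, hW2⟩ := hinf.exists_subset_card_eq N
  have h1 := card_le_vol hh D W (fun z hz => hW1 hz)
  rw [hW2] at h1
  refine le_trans ?_ h1
  rw [← ENNReal.div_le_iff hpos.ne' htop]
  exact hN.le

theorem vol_le_card {h : ℝ} (hh : 0 < h) (D : Set (Fin d → ℝ)) (W : Finset (Fin d → ℤ))
    (hW : ∀ x ∈ D, fl h x ∈ W) :
    volume (Metric.thickening (2 * h) D) ≤ ((W.card : ℕ) : ℝ≥0∞) * ENNReal.ofReal (5 * h) ^ d := by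
  classical
  have hsub : Metric.thickening (2 * h) D ⊆
      ⋃ z ∈ W, Set.pi univ fun i => Icc (h * z i - 2 * h) (h * z i + 3 * h) := by
    intro y hy
    rw [Metric.mem_thickening_iff] at hy
    obtain ⟨x, hx, hxy⟩ := hy
    refine mem_iUnion₂.2 ⟨fl h x, hW x hx, ?_⟩
    rw [mem_univ_pi]
    intro i
    have h1 := (dist_pi_lt_iff (by positivity : (0:ℝ) < 2 * h)).1 hxy i
    rw [Real.dist_eq, abs_lt] at h1
    have h2 := Int.floor_le (x i / h)
    have h3 := Int.lt_floor_add_one (x i / h)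
    rw [le_div_iff₀ hh] at h2
    rw [div_lt_iff₀ hh] at h3
    simp only [fl]
    constructor <;> nlinarith [h1.1, h1.2]
  refine (measure_mono hsub).trans ((measure_biUnion_finset_le _ _).trans ?_)
  have hvol : ∀ z : Fin d → ℤ, volume (Set.pi univ fun i => Icc (h * (z i : ℝ) - 2 * h)
      (h * z i + 3 * h)) = ENNReal.ofReal (5 * h) ^ d := by
    intro z
    rw [volume_pi_pi]
    simp only [Real.volume_Icc]
    have : ∀ i : Fin d, h * (z i : ℝ) + 3 * h - (h * z i - 2 * h) = 5 * h := fun i => by ring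
    simp [this]
  rw [Finset.sum_congr rfl fun z _ => hvol z, Finset.sum_const, nsmul_eq_mul]

theorem add_card (h : ℝ) (G H : Finset (Fin d → ℤ)) (D : Set (Fin d → ℝ))
    (hG : ∀ z ∈ G, z ∈ fl h '' D) (hH : ∀ x ∈ D + D, fl h x ∈ H) :
    (G + G).card ≤ 2 ^ d * H.card := by
  classical
  set T : Finset (Fin d → ℤ) := Fintype.piFinset fun _ : Fin d => Finset.Icc 0 1 with hT
  have hTc : T.card = 2 ^ d := by
    rw [hT, Fintype.card_piFinset]
    simp
  rw [← hTc, ← Finset.card_product]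
  refine (Finset.card_le_card (t := (T ×ˢ H).image fun q => q.2 - q.1) ?_).trans
    Finset.card_image_le
  intro x hx
  obtain ⟨a, ha, b, hb, rfl⟩ := Finset.mem_add.1 hx
  obtain ⟨u, hu, rfl⟩ := hG a ha
  obtain ⟨v, hv, rfl⟩ := hG b hb
  refine Finset.mem_image.2 ⟨(fl h (u + v) - (fl h u + fl h v), fl h (u + v)), ?_, ?_⟩
  · refine Finset.mem_product.2 ⟨?_, hH _ (Set.add_mem_add hu hv)⟩
    rw [hT, Fintype.mem_piFinset]
    intro i
    simp only [fl, Pi.sub_apply, Pi.add_apply, add_div]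
    have h1 := Int.le_floor_add (u i / h) (v i / h)
    have h2 := Int.le_floor_add_floor (u i / h) (v i / h)
    rw [Finset.mem_Icc]
    omega
  · simp

/-- Structured sets at scale `2 h`. -/
def StrS (h Q : ℝ) (m : ℝ≥0∞) (A : Set (Fin d → ℝ)) : Prop :=
  ∃ (N : ℕ) (D : Fin N → Set (Fin d → ℝ)), (N : ℝ) ≤ Q ∧ A ⊆ ⋃ j, D j ∧ ∀ j,
    volume (Metric.thickening (2 * h) (D j + D j)) ≤
      ENNReal.ofReal Q * volume (Metric.thickening (2 * h) (D j)) ∧
    volume (Metric.thickening (2 * h) (D j)) ≤ m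

theorem StrS.strV {h Q m : ℝ} (hh : 0 < h) (hQ : 0 ≤ Q) (hm : 0 ≤ m) {A : Set (Fin d → ℝ)}
    (hA : StrS h Q (ENNReal.ofReal m) A) (P0 : Finset (Fin d → ℤ)) (hP : ∀ z ∈ P0, z ∈ fl h '' A) :
    StrV (10 ^ d * Q) Q (m / h ^ d) P0 := by
  classical
  obtain ⟨N, D, hN, hcov, hD⟩ := hA
  have hfin : ∀ j, volume (Metric.thickening (2 * h) (D j)) ≠ ∞ := fun j =>
    ((hD j).2.trans_lt ENNReal.ofReal_lt_top).ne
  have hfin2 : ∀ j, volume (Metric.thickening (2 * h) (D j + D j)) ≠ ∞ := fun j =>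
    ((hD j).1.trans_lt (ENNReal.mul_lt_top ENNReal.ofReal_lt_top (hfin j).lt_top)).ne
  set G : Fin N → Finset (Fin d → ℤ) := fun j => (finite_of_vol hh (D j) (hfin j)).toFinset with hG
  set H : Fin N → Finset (Fin d → ℤ) := fun j => (finite_of_vol hh (D j + D j) (hfin2 j)).toFinset
    with hH
  have hGm : ∀ j z, z ∈ G j ↔ z ∈ fl h '' D j := fun j z => Set.Finite.mem_toFinset _
  have hHm : ∀ j z, z ∈ H j ↔ z ∈ fl h '' (D j + D j) := fun j z => Set.Finite.mem_toFinset _
  have hhd : (0:ℝ) < h ^ d := by positivity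
  refine ⟨Finset.univ.image G, ?_, ?_, ?_⟩
  · refine le_trans ?_ hN
    have : (Finset.univ.image G).card ≤ N := by
      refine Finset.card_image_le.trans ?_
      simp
    exact_mod_cast this
  · intro D' hD'
    obtain ⟨j, -, rfl⟩ := Finset.mem_image.1 hD'
    have h1 := add_card h (G j) (H j) (D j) (fun z hz => (hGm j z).1 hz)
      (fun x hx => (hHm j _).2 ⟨x, hx, rfl⟩)
    have h2 := card_le_vol hh (D j + D j) (H j) (fun z hz => (hHm j z).1 hz)
    have h3 := vol_le_card hh (D j) (G j) (fun x hx => (hGm j _).2 ⟨x, hx, rfl⟩)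
    have h4 := card_le_vol hh (D j) (G j) (fun z hz => (hGm j z).1 hz)
    have h5 : ((H j).card : ℝ) * h ^ d ≤ Q * ((G j).card * (5 * h) ^ d) := by
      have h6 := h2.trans ((hD j).1.trans (mul_le_mul_right h3 (ENNReal.ofReal Q)))
      rw [← ENNReal.ofReal_pow hh.le, ← ENNReal.ofReal_pow (by positivity),
        ← ENNReal.ofReal_natCast, ← ENNReal.ofReal_natCast, ← ENNReal.ofReal_mul (by positivity),
        ← ENNReal.ofReal_mul (by positivity), ← ENNReal.ofReal_mul hQ,
        ENNReal.ofReal_le_ofReal_iff (by positivity)] at h6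
      exact h6
    constructor
    · have h7 : ((G j + G j).card : ℝ) ≤ 2 ^ d * (H j).card := by exact_mod_cast h1
      have h8 : ((H j).card : ℝ) ≤ Q * ((G j).card * 5 ^ d) := by
        rw [mul_pow] at h5
        have h9 : ((H j).card : ℝ) * h ^ d ≤ (Q * ((G j).card * 5 ^ d)) * h ^ d := by
          refine h5.trans (le_of_eq ?_); ring
        exact le_of_mul_le_mul_right h9 hhd
      calc ((G j + G j).card : ℝ) ≤ 2 ^ d * (H j).card := h7
        _ ≤ 2 ^ d * (Q * ((G j).card * 5 ^ d)) := by gcongr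
        _ = 10 ^ d * Q * (G j).card := by
            rw [show (10:ℝ) = 2 * 5 by norm_num, mul_pow]; ring
    · rw [le_div_iff₀ hhd]
      have h6 := h4.trans (hD j).2
      rw [← ENNReal.ofReal_pow hh.le, ← ENNReal.ofReal_natCast,
        ← ENNReal.ofReal_mul (by positivity), ENNReal.ofReal_le_ofReal_iff hm] at h6
      exact h6
  · intro z hz
    obtain ⟨x, hx, rfl⟩ := hP z hz
    obtain ⟨j, hj⟩ := mem_iUnion.1 (hcov hx)
    exact ⟨G j, Finset.mem_image_of_mem _ (Finset.mem_univ _), (hGm j _).2 ⟨x, hj, rfl⟩⟩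

end Pool.Agent.R251.Str
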