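import Pool.Agent.R251.Str.Slab

set_option autoImplicit false

/-! Kakeya sets with additively structured slices. -/

open MeasureTheory Set
open scoped Pointwise ENNReal

namespace Pool.Agent.R251.Str

open Pool.Agent.W46.KK

/-- The slice at height `t`. -/
def slc {d : ℕ} (K : Set (EuclideanSpace ℝ (Fin (d + 1)))) (t : ℝ) : Set (Fin d → ℝ) :=
  {y | WithLp.toLp 2 (Fin.cons t y : Fin (d + 1) → ℝ) ∈ K}

theorem one_scale (d k : ℕ) :
    ∃ (κ γ₀ : ℝ) (C : ℕ), 0 < κ ∧ 0 < γ₀ ∧ ∀ K : Set (EuclideanSpace ℝ (Fin (d + 1))),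
      HasSegments K → ∀ (h : ℝ), 0 < h → ∀ (G : Set ℝ) (m : ℝ → ℝ≥0∞) (Q : ℝ), 1 ≤ Q →
      Measurable m → volume Gᶜ ≤ ENNReal.ofReal γ₀ → (∀ t ∈ G, StrS h Q (m t) (slc K t)) →
      ENNReal.ofReal (κ * h ^ ((d : ℝ) / (k + 1)) / Q ^ C) ≤ ∫⁻ t, m t := by
  obtain ⟨κ, γ₀, C, hκ, hγ, hkak⟩ := kakS k d (1 / (d + 1)) (by positivity)
  refine ⟨κ, γ₀, C, hκ, hγ, ?_⟩
  intro K hK h hh G m Q hQ hm hG hstr
  have hd1 : (0 : ℝ) < (d : ℝ) + 1 := by positivity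
  set w : (Fin d → ℝ) → EuclideanSpace ℝ (Fin (d + 1)) := fun v => WithLp.toLp 2 (Fin.cons 1 v)
    with hw
  have hw0 : ∀ v, (w v) 0 = 1 := fun v => rfl
  have hws : ∀ v i, (w v) (Fin.succ i) = v i := fun v i => rfl
  have hnorm1 : ∀ v, 1 ≤ ‖w v‖ := by
    intro v
    have := PiLp.norm_apply_le (w v) 0
    rw [hw0] at this
    simpa using this
  have hex : ∀ v : Fin d → ℝ, ∃ a : EuclideanSpace ℝ (Fin (d + 1)),
      ∀ t ∈ Set.Icc (0 : ℝ) 1, a + t • (‖w v‖⁻¹ • w v) ∈ K := by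
    intro v
    apply hK
    rw [norm_smul, norm_inv, norm_norm]
    exact inv_mul_cancel₀ (by have := hnorm1 v; positivity)
  choose a ha using hex
  refine hkak h hh (fun v i => a v (Fin.succ i) - a v 0 * v i) (fun v => a v 0) (slc K) G m Q hQ hm
    hG hstr ?_
  intro v hv t ht
  have hnle : ‖w v‖ ≤ d + 1 := by
    rw [EuclideanSpace.norm_eq]
    apply Real.sqrt_le_iff.mpr
    refine ⟨by positivity, ?_⟩
    rw [Fin.sum_univ_succ]
    have h1 : ∑ i : Fin d, ‖(w v) (Fin.succ i)‖ ^ 2 ≤ ∑ _i : Fin d, (1 : ℝ) := by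
      refine Finset.sum_le_sum fun i _ => ?_
      rw [hws, Real.norm_eq_abs, sq_abs]
      have := hv i
      nlinarith
    rw [Finset.sum_const, Finset.card_univ, Fintype.card_fin, nsmul_eq_mul, mul_one] at h1
    rw [hw0]
    have hdnn : (0 : ℝ) ≤ d := Nat.cast_nonneg d
    simp only [norm_one, one_pow]
    nlinarith
  have h2 := ha v ((t - a v 0) * ‖w v‖) ⟨by
      have := ht.1
      have := hnorm1 v
      exact mul_nonneg (by linarith) (by linarith), by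
      have h3 : t - a v 0 ≤ 1 / (d + 1) := by linarith [ht.2]
      calc (t - a v 0) * ‖w v‖ ≤ 1 / (d + 1) * (d + 1) := by
            apply mul_le_mul h3 hnle (norm_nonneg _) (by positivity)
        _ = 1 := by field_simp⟩
  rw [smul_smul, mul_assoc, mul_inv_cancel₀ (by have := hnorm1 v; positivity), mul_one] at h2
  show WithLp.toLp 2 (Fin.cons t (fun i => a v (Fin.succ i) - a v 0 * v i + t * v i) :
    Fin (d + 1) → ℝ) ∈ K
  convert h2 using 1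
  ext i
  refine Fin.cases ?_ (fun j => ?_) i
  · show t = (a v) 0 + (t - a v 0) * (w v) 0
    rw [hw0]; ring
  · show a v (Fin.succ j) - a v 0 * v j + t * v j = (a v) (Fin.succ j) + (t - a v 0) * (w v) (Fin.succ j)
    rw [hws]; ring

theorem minkowski (d : ℕ) (ε : ℝ) (hε : 0 < ε) :
    ∃ γ : ℝ, 0 < γ ∧ ∀ K : Set (EuclideanSpace ℝ (Fin (d + 1))), HasSegments K →
      (∃ δ₀ : ℝ, 0 < δ₀ ∧ ∀ δ : ℝ, 0 < δ → δ < δ₀ → ∃ (G : Set ℝ) (m : ℝ → ℝ≥0∞),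
        volume Gᶜ ≤ ENNReal.ofReal γ ∧ Measurable m ∧
        (∀ t ∈ G, StrS (δ / 2) (δ ^ (-γ)) (m t) (slc K t)) ∧
        ∫⁻ t, m t ≤ ENNReal.ofReal (δ ^ (-γ)) * volume (Metric.thickening δ K)) →
      ∃ c' : ℝ, 0 < c' ∧ ∀ δ : ℝ, 0 < δ → δ < 1 →
        ENNReal.ofReal (c' * δ ^ ε) ≤ volume (Metric.thickening δ K) := by
  obtain ⟨k, hk⟩ := exists_nat_gt (2 * (d : ℝ) / ε)
  obtain ⟨κ, γ₀, C, hκ, hγ₀, hmain⟩ := one_scale d k
  set γ : ℝ := min γ₀ (ε / (2 * ((C:ℝ) + 1))) with hγdef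
  have hγ : 0 < γ := lt_min hγ₀ (by positivity)
  refine ⟨γ, hγ, ?_⟩
  rintro K hK ⟨δ₀, hδ₀, hst⟩
  have hk1 : (0:ℝ) < (k:ℝ) + 1 := by positivity
  have hexp : (d:ℝ) / (k + 1) + γ * C + γ ≤ ε := by
    have h1 : (d:ℝ) / (k + 1) ≤ ε / 2 := by
      rw [div_lt_iff₀ hε] at hk
      rw [div_le_iff₀ hk1]
      nlinarith
    have h2 : γ * ((C:ℝ) + 1) ≤ ε / 2 := by
      have h3 : γ ≤ ε / (2 * ((C:ℝ) + 1)) := min_le_right _ _
      calc γ * ((C:ℝ) + 1) ≤ ε / (2 * ((C:ℝ) + 1)) * ((C:ℝ) + 1) := by gcongr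
        _ = ε / 2 := by field_simp
    linarith
  set c₁ : ℝ := κ * (1 / 2) ^ ((d:ℝ) / (k + 1)) with hc₁
  have hc₁0 : 0 < c₁ := by positivity
  have small : ∀ δ : ℝ, 0 < δ → δ < δ₀ → δ ≤ 1 →
      ENNReal.ofReal (c₁ * δ ^ ε) ≤ volume (Metric.thickening δ K) := by
    intro δ hδ hδ0 hδ1
    obtain ⟨G, m, hG, hm, hstr, hint⟩ := hst δ hδ hδ0
    have hQ : 1 ≤ δ ^ (-γ) := Real.one_le_rpow_of_pos_of_le_one_of_nonpos hδ hδ1 (by linarith)
    have h1 := hmain K hK (δ / 2) (by positivity) G m (δ ^ (-γ)) hQ hm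
      (hG.trans (ENNReal.ofReal_le_ofReal (min_le_left _ _))) hstr
    have h2 := h1.trans hint
    have e1 : κ * (δ / 2) ^ ((d:ℝ) / (k + 1)) / (δ ^ (-γ)) ^ C =
        δ ^ (-γ) * (c₁ * δ ^ ((d:ℝ) / (k + 1) + γ * C + γ)) := by
      rw [hc₁, show δ / 2 = δ * (1 / 2) by ring, Real.mul_rpow hδ.le (by norm_num),
        ← Real.rpow_natCast, ← Real.rpow_mul hδ.le, Real.rpow_add hδ, Real.rpow_add hδ,
        Real.rpow_neg hδ.le γ, show -γ * (C:ℝ) = -(γ * C) by ring, Real.rpow_neg hδ.le (γ * C)]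
      have : 0 < δ ^ γ := by positivity
      have : 0 < δ ^ (γ * C) := by positivity
      field_simp
    rw [e1, ENNReal.ofReal_mul (by positivity)] at h2
    have h3 := (ENNReal.mul_le_mul_iff_right (by
      rw [ne_eq, ENNReal.ofReal_eq_zero, not_le]; positivity) ENNReal.ofReal_ne_top).1 h2
    refine le_trans (ENNReal.ofReal_le_ofReal ?_) h3
    gcongr c₁ * ?_
    exact Real.rpow_le_rpow_of_exponent_ge hδ hδ1 hexp
  set δ₁ : ℝ := min (δ₀ / 2) 1 with hδ₁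
  have hδ₁pos : 0 < δ₁ := by rw [hδ₁]; positivity
  have hδ₁lt : δ₁ < δ₀ := lt_of_le_of_lt (min_le_left _ _) (by linarith)
  have hδ₁le : δ₁ ≤ 1 := min_le_right _ _
  refine ⟨c₁ * δ₁ ^ ε, by positivity, ?_⟩
  intro δ hδ hδ1
  have hδκ : δ ^ ε ≤ 1 := Real.rpow_le_one hδ.le hδ1.le hε.le
  have hδ₁κ : δ₁ ^ ε ≤ 1 := Real.rpow_le_one hδ₁pos.le hδ₁le hε.le
  have hδκ0 : 0 ≤ δ ^ ε := by positivity
  have hδ₁κ0 : 0 ≤ δ₁ ^ ε := by positivity
  rcases lt_or_ge δ δ₀ with h | h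
  · refine le_trans (ENNReal.ofReal_le_ofReal ?_) (small δ hδ h hδ1.le)
    have : c₁ * δ₁ ^ ε ≤ c₁ := by nlinarith
    nlinarith [mul_le_mul_of_nonneg_right this hδκ0]
  · calc ENNReal.ofReal (c₁ * δ₁ ^ ε * δ ^ ε) ≤ ENNReal.ofReal (c₁ * δ₁ ^ ε) := by
          apply ENNReal.ofReal_le_ofReal
          have : 0 ≤ c₁ * δ₁ ^ ε := by positivity
          nlinarith
      _ ≤ volume (Metric.thickening δ₁ K) := small δ₁ hδ₁pos hδ₁lt hδ₁le
      _ ≤ volume (Metric.thickening δ K) := by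
          apply measure_mono
          apply Metric.thickening_mono
          linarith

end Pool.Agent.R251.Str
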