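import Pool.Agent.R251.Str.Grid

set_option autoImplicit false

/-! Families of segments with structured slices. -/

open Finset MeasureTheory Set
open scoped Pointwise ENNReal

namespace Pool.Agent.R251.Str

open Pool.Agent.W46.KK

theorem StrS.mono_m {d : ℕ} {h Q : ℝ} {m m' : ℝ≥0∞} {A : Set (Fin d → ℝ)} (hm : m ≤ m')
    (hA : StrS h Q m A) : StrS h Q m' A := by
  obtain ⟨N, D, h1, h2, h3⟩ := hA
  exact ⟨N, D, h1, h2, fun j => ⟨(h3 j).1, (h3 j).2.trans hm⟩⟩

/-- One slab. -/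
theorem slab (S : Finset ℚ) (hS : (-1 : ℚ) ∉ S) (d : ℕ) (μ : ℝ) (hμ : 0 < μ) :
    ∃ (η κ γ₀ : ℝ) (C : ℕ), 0 < η ∧ 0 < κ ∧ 0 < γ₀ ∧ ∀ (h : ℝ), 0 < h →
      ∀ (V : Finset (Fin d → ℝ)), V.Nonempty → ∀ (p : (Fin d → ℝ) → Fin d → ℝ) (a : ℝ)
      (A : ℝ → Set (Fin d → ℝ)) (G : Set ℝ) (m : ℝ → ℝ≥0∞) (Q : ℝ), 1 ≤ Q → Measurable m →
      volume Gᶜ ≤ ENNReal.ofReal γ₀ → (∀ t ∈ G, StrS h Q (m t) (A t)) →
      (∀ v ∈ V, ∀ w ∈ V, v ≠ w → ∃ i, 2 * h / η ≤ |v i - w i|) →
      (∀ v ∈ V, ∀ t ∈ Set.Icc a (a + μ), (fun i => p v i + t * v i) ∈ A t) →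
      ENNReal.ofReal (κ * h ^ d * (V.card : ℝ) ^ ((S.card : ℝ) / (S.card + 1)) / Q ^ C) ≤
        ∫⁻ t in Set.Ico a (a + μ), m t := by
  classical
  obtain ⟨C, Q₀, hQ₀, hcore⟩ := core S hS d
  set R : Finset ℝ := insert 1 (S.image fun r : ℚ => (r : ℝ) / (1 + r)) with hR
  set Bd : ℝ := 1 + ∑ s ∈ R, |s| with hBd
  have hBd1 : 1 ≤ Bd := by
    have : 0 ≤ ∑ s ∈ R, |s| := Finset.sum_nonneg fun _ _ => abs_nonneg _
    rw [hBd]; linarith
  have hs : ∀ s ∈ R, |s| ≤ Bd := by
    intro s hs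
    have := Finset.single_le_sum (f := fun s : ℝ => |s|) (fun _ _ => abs_nonneg _) hs
    rw [hBd]; linarith
  set η : ℝ := μ / (4 * Bd) with hη
  have hηpos : 0 < η := by positivity
  have hsη : ∀ s ∈ R, |s * η| ≤ μ / 4 := by
    intro s hs'
    rw [abs_mul, abs_of_pos hηpos, hη]
    have := hs s hs'
    calc |s| * (μ / (4 * Bd)) ≤ Bd * (μ / (4 * Bd)) := by gcongr
      _ = μ / 4 := by field_simp
  have hRpos : (0 : ℝ) < (R.card : ℝ) := by
    have : 0 < R.card := Finset.card_pos.mpr ⟨1, Finset.mem_insert_self _ _⟩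
    exact_mod_cast this
  obtain ⟨rc, hrc⟩ : ∃ rc : ℝ, rc = (R.card : ℝ) := ⟨_, rfl⟩
  rw [← hrc] at hRpos
  set E₀ : ℝ := (10 ^ d * Q₀) ^ C with hE₀
  have hE₀1 : 0 < E₀ := by positivity
  refine ⟨η, μ / (4 * rc * E₀), μ / (4 * rc), 2 * C, hηpos, by positivity, by positivity, ?_⟩
  intro h hh V hVne p a A G m Q hQ hm hG hstr hsep hV
  have hQ0 : 0 < Q := by linarith
  set sl : Set ℝ := Set.Ico a (a + μ) with hsl
  by_cases htop : ∫⁻ t in sl, m t = ⊤
  · rw [htop]; exact le_top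
  set m' : ℝ → ℝ≥0∞ := sl.indicator m with hm'
  have hslm : MeasurableSet sl := measurableSet_Ico
  have hm'm : Measurable m' := hm.indicator hslm
  have hm'int : ∫⁻ t, m' t = ∫⁻ t in sl, m t := by rw [hm', lintegral_indicator hslm]
  set Bad : Set ℝ := toMeasurable volume Gᶜ with hBad
  have hBadm : MeasurableSet Bad := measurableSet_toMeasurable _ _
  have hBadv : volume Bad ≤ ENNReal.ofReal (μ / (4 * rc)) := by
    rw [hBad, measure_toMeasurable]; exact hG
  set mid : Set ℝ := Set.Ico (a + μ / 4) (a + 3 * μ / 4) with hmid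
  have hmidvol : volume mid = ENNReal.ofReal (μ / 2) := by
    rw [hmid, Real.volume_Ico]; congr 1; ring
  set Bad' : Set ℝ := ⋃ s ∈ R, (fun t => t + s * η) ⁻¹' Bad with hBad'
  have hBad'm : MeasurableSet Bad' := by
    rw [hBad']
    exact Finset.measurableSet_biUnion _ fun s _ => hBadm.preimage (measurable_id.add_const _)
  have hBad'v : volume Bad' ≤ ENNReal.ofReal (μ / 4) := by
    rw [hBad']
    refine (measure_biUnion_finset_le _ _).trans ?_
    calc ∑ s ∈ R, volume ((fun t => t + s * η) ⁻¹' Bad) = ∑ s ∈ R, volume Bad := by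
          refine Finset.sum_congr rfl fun s _ => ?_
          rw [measure_preimage_add_right]
      _ = ENNReal.ofReal rc * volume Bad := by
          rw [Finset.sum_const, nsmul_eq_mul, hrc, ENNReal.ofReal_natCast]
      _ ≤ ENNReal.ofReal rc * ENNReal.ofReal (μ / (4 * rc)) := by gcongr
      _ = ENNReal.ofReal (μ / 4) := by
          rw [← ENNReal.ofReal_mul hRpos.le]
          congr 1
          field_simp
  set mid' : Set ℝ := mid \ Bad' with hmid'
  have hmid'vol : ENNReal.ofReal (μ / 4) ≤ volume mid' := by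
    have h1 : volume mid ≤ volume mid' + volume Bad' := by
      refine le_trans (measure_mono ?_) (measure_union_le _ _)
      intro t ht
      by_cases h2 : t ∈ Bad'
      · exact Or.inr h2
      · exact Or.inl ⟨ht, h2⟩
    have h2 : ENNReal.ofReal (μ / 4) + ENNReal.ofReal (μ / 4) ≤ volume mid' + ENNReal.ofReal (μ / 4) := by
      rw [← ENNReal.ofReal_add (by positivity) (by positivity)]
      have e1 : μ / 4 + μ / 4 = μ / 2 := by ring
      rw [e1, ← hmidvol]
      exact h1.trans (by gcongr)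
    exact (ENNReal.add_le_add_iff_right ENNReal.ofReal_ne_top).1 h2
  have hmid'0 : volume mid' ≠ 0 := by
    intro h0
    rw [h0] at hmid'vol
    have : ENNReal.ofReal (μ / 4) = 0 := le_antisymm hmid'vol zero_le
    rw [ENNReal.ofReal_eq_zero] at this
    linarith
  have hmid'top : volume mid' ≠ ⊤ := by
    have : volume mid' ≤ volume mid := measure_mono sdiff_subset
    rw [hmidvol] at this
    exact (this.trans_lt ENNReal.ofReal_lt_top).ne
  set F : ℝ → ℝ≥0∞ := fun t => ∑ s ∈ R, m' (t + s * η) with hF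
  have hFm : Measurable F := by
    rw [hF]
    exact Finset.measurable_fun_sum _ fun s _ => hm'm.comp (measurable_id.add_const _)
  obtain ⟨t₀, ht₀, hFt⟩ := exists_le_setLAverage hmid'0 hmid'top hFm.aemeasurable
  have hFint : ∫⁻ t in mid', F t ≤ ENNReal.ofReal rc * ∫⁻ t in sl, m t := by
    calc ∫⁻ t in mid', F t ≤ ∫⁻ t, F t := setLIntegral_le_lintegral _ _
      _ = ∑ s ∈ R, ∫⁻ t, m' (t + s * η) := by
          rw [hF, lintegral_finsetSum]
          exact fun s _ => hm'm.comp (measurable_id.add_const _)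
      _ = ∑ s ∈ R, ∫⁻ t in sl, m t := by
          refine Finset.sum_congr rfl fun s _ => ?_
          rw [lintegral_add_right_eq_self (fun t => m' t) (s * η), hm'int]
      _ = ENNReal.ofReal rc * ∫⁻ t in sl, m t := by
          rw [Finset.sum_const, nsmul_eq_mul, hrc, ENNReal.ofReal_natCast]
  set W : ℝ := (∫⁻ t in sl, m t).toReal with hW
  have hWnn : 0 ≤ W := ENNReal.toReal_nonneg
  have hWeq : ∫⁻ t in sl, m t = ENNReal.ofReal W := (ENNReal.ofReal_toReal htop).symm
  have hFle : F t₀ ≤ ENNReal.ofReal (4 * rc * W / μ) := by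
    refine hFt.trans ?_
    rw [setLAverage_eq]
    refine ENNReal.div_le_of_le_mul ?_
    refine hFint.trans ?_
    refine le_trans ?_ (mul_le_mul_right hmid'vol _)
    rw [hWeq, ← ENNReal.ofReal_mul (by positivity), ← ENNReal.ofReal_mul (by positivity)]
    apply ENNReal.ofReal_le_ofReal
    apply le_of_eq
    field_simp
  set B : ℝ := 4 * rc * W / μ with hB
  have hBnn : 0 ≤ B := by positivity
  have htime : ∀ s ∈ R, StrV (10 ^ d * Q) Q (B / h ^ d) (V.image (pos h p (t₀ + s * η))) := by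
    intro s hs'
    have h1 := hsη s hs'
    rw [abs_le] at h1
    have h2 : t₀ + s * η ∈ sl := by
      have := ht₀.1
      rw [hmid] at this
      constructor <;> [linarith [this.1, h1.1]; linarith [this.2, h1.2]]
    have h3 : t₀ + s * η ∈ G := by
      by_contra hnG
      apply ht₀.2
      rw [hBad']
      exact mem_iUnion₂.2 ⟨s, hs', subset_toMeasurable _ _ hnG⟩
    have h4 : m (t₀ + s * η) ≤ ENNReal.ofReal B := by
      refine le_trans ?_ hFle
      have e1 : m (t₀ + s * η) = m' (t₀ + s * η) := by rw [hm', indicator_of_mem h2]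
      rw [e1, hF]
      exact Finset.single_le_sum (f := fun s => m' (t₀ + s * η)) (fun _ _ => zero_le) hs'
    refine ((hstr _ h3).mono_m h4).strV hh hQ0.le hBnn _ ?_
    intro z hz
    obtain ⟨v, hv, rfl⟩ := Finset.mem_image.1 hz
    exact ⟨_, hV v hv _ ⟨h2.1, h2.2.le⟩, rfl⟩
  have key := hcore h hh V hVne p t₀ η hηpos hsep (10 ^ d * Q) Q (B / h ^ d) hQ
    (by have := htime 1 (Finset.mem_insert_self _ _); rwa [one_mul] at this)
    (by
      intro r hr
      exact htime _ (Finset.mem_insert_of_mem (Finset.mem_image_of_mem _ hr)))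
  set k : ℝ := (S.card : ℝ) with hk
  have hk0 : 0 ≤ k := Nat.cast_nonneg _
  have hk1 : 0 < k + 1 := by linarith
  set E : ℝ := (10 ^ d * Q * (Q₀ * Q)) ^ C with hE
  have hbase : 1 ≤ 10 ^ d * Q * (Q₀ * Q) := by
    have h1 : (1:ℝ) ≤ 10 ^ d := one_le_pow₀ (by norm_num)
    have h2 : 1 ≤ 10 ^ d * Q := one_le_mul_of_one_le_of_one_le h1 hQ
    have h3 : 1 ≤ Q₀ * Q := one_le_mul_of_one_le_of_one_le hQ₀ hQ
    exact one_le_mul_of_one_le_of_one_le h2 h3
  have hE1 : 1 ≤ E := one_le_pow₀ hbase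
  have hBh : 0 ≤ B / h ^ d := by positivity
  have hE0 : 0 ≤ E := by linarith
  have hV0 : (0:ℝ) ≤ (V.card : ℝ) := Nat.cast_nonneg _
  have hk1' : 0 ≤ 1 / (k + 1) := by
    apply div_nonneg zero_le_one hk1.le
  have h6 : (V.card : ℝ) ^ (k / (k + 1)) ≤ E * (B / h ^ d) := by
    have h7 := Real.rpow_le_rpow (pow_nonneg hV0 _) key hk1'
    rw [← Real.rpow_natCast (V.card : ℝ), ← Real.rpow_mul hV0, mul_one_div,
      Real.mul_rpow hE0 (pow_nonneg hBh _), ← Real.rpow_natCast (B / h ^ d),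
      ← Real.rpow_mul hBh] at h7
    have e1 : (((S.card + 1 : ℕ) : ℝ)) * (1 / (k + 1)) = 1 := by
      have e2 : (((S.card + 1 : ℕ) : ℝ)) = k + 1 := by
        rw [hk, Nat.cast_add, Nat.cast_one]
      rw [e2]
      exact mul_one_div_cancel hk1.ne'
    rw [e1, Real.rpow_one] at h7
    refine h7.trans (mul_le_mul_of_nonneg_right ?_ hBh)
    calc E ^ (1 / (k + 1)) ≤ E ^ (1:ℝ) := by
          apply Real.rpow_le_rpow_of_exponent_le hE1
          rw [div_le_one hk1]
          linarith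
      _ = E := Real.rpow_one _
  have hEeq : E = E₀ * Q ^ (2 * C) := by
    rw [hE, hE₀, pow_mul Q 2 C, ← mul_pow]
    congr 1
    ring
  rw [hWeq]
  apply ENNReal.ofReal_le_ofReal
  have hQC : 0 < Q ^ (2 * C) := by positivity
  rw [div_le_iff₀ hQC]
  calc μ / (4 * rc * E₀) * h ^ d * (V.card : ℝ) ^ (k / (k + 1))
      ≤ μ / (4 * rc * E₀) * h ^ d * (E * (B / h ^ d)) := by gcongr
    _ = W * Q ^ (2 * C) := by
      rw [hB, hEeq]
      field_simp

/-- Families of segments over the unit cube of directions. -/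
theorem kakS (k : ℕ) (d : ℕ) (lam : ℝ) (hlam : 0 < lam) :
    ∃ (κ γ₀ : ℝ) (C : ℕ), 0 < κ ∧ 0 < γ₀ ∧ ∀ (h : ℝ), 0 < h →
      ∀ (p : (Fin d → ℝ) → Fin d → ℝ) (b : (Fin d → ℝ) → ℝ)
      (A : ℝ → Set (Fin d → ℝ)) (G : Set ℝ) (m : ℝ → ℝ≥0∞) (Q : ℝ), 1 ≤ Q → Measurable m →
      volume Gᶜ ≤ ENNReal.ofReal γ₀ → (∀ t ∈ G, StrS h Q (m t) (A t)) →
      (∀ v : Fin d → ℝ, (∀ i, 0 ≤ v i ∧ v i ≤ 1) → ∀ t ∈ Set.Icc (b v) (b v + lam),
        (fun i => p v i + t * v i) ∈ A t) →
      ENNReal.ofReal (κ * h ^ ((d : ℝ) / (k + 1)) / Q ^ C) ≤ ∫⁻ t, m t := by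
  classical
  set S : Finset ℚ := (Finset.range k).image fun j : ℕ => (j : ℚ) with hS
  have hScard : S.card = k := by
    rw [hS, Finset.card_image_of_injective _ Nat.cast_injective, Finset.card_range]
  have hS1 : (-1 : ℚ) ∉ S := by
    intro hmem
    obtain ⟨j, -, hj⟩ := Finset.mem_image.1 hmem
    have : (0:ℚ) ≤ (j : ℚ) := Nat.cast_nonneg j
    rw [hj] at this
    norm_num at this
  obtain ⟨η, κ, γ₀, C, hη, hκ, hγ₀, hslab⟩ := slab S hS1 d (lam / 2) (by positivity)
  rw [hScard] at hslab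
  set θ : ℝ := (k : ℝ) / (k + 1) with hθ
  have hk0 : (0:ℝ) ≤ k := Nat.cast_nonneg _
  have hk1 : (0:ℝ) < (k:ℝ) + 1 := by positivity
  refine ⟨κ * (η / 2) ^ ((d : ℝ) * θ), γ₀, C, by positivity, hγ₀, ?_⟩
  intro h hh p b A G m Q hQ hm hG hstr hfam
  have hQ0 : 0 < Q := by linarith
  set μ : ℝ := lam / 2 with hμ
  have hμpos : 0 < μ := by positivity
  set L : ℝ := 2 * h / η with hL
  have hLpos : 0 < L := by positivity
  set V := grid d L with hV
  set j : (Fin d → ℝ) → ℤ := fun v => ⌈b v / μ⌉ with hj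
  set J := V.image j with hJ
  have hone : ∀ l ∈ J, ENNReal.ofReal (κ * h ^ d *
      ((V.filter fun v => j v = l).card : ℝ) ^ θ / Q ^ C) ≤
      ∫⁻ t in Set.Ico (l * μ) (l * μ + μ), m t := by
    intro l hl
    refine hslab h hh (V.filter fun v => j v = l) ?_ p (l * μ) A G m Q hQ hm hG hstr ?_ ?_
    · obtain ⟨v, hv, hvl⟩ := Finset.mem_image.1 hl
      exact ⟨v, Finset.mem_filter.2 ⟨hv, hvl⟩⟩
    · intro v hv w hw hne
      exact grid_sep hLpos (Finset.mem_filter.mp hv).1 (Finset.mem_filter.mp hw).1 hne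
    · intro v hv t ht
      rw [Finset.mem_filter] at hv
      refine hfam v (fun i => grid_mem hLpos hv.1 i) t ?_
      have h1 : b v / μ ≤ l := by rw [← hv.2]; exact Int.le_ceil _
      have h2 : (l : ℝ) < b v / μ + 1 := by rw [← hv.2]; exact Int.ceil_lt_add_one _
      rw [div_le_iff₀ hμpos] at h1
      have h3 : (l : ℝ) * μ < b v + μ := by
        have := mul_lt_mul_of_pos_right h2 hμpos
        rwa [add_mul, one_mul, div_mul_cancel₀ _ hμpos.ne'] at this
      have hlam' : lam = 2 * μ := by rw [hμ]; ring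
      constructor
      · linarith [ht.1]
      · linarith [ht.2]
  have hdisj : (J : Set ℤ).PairwiseDisjoint fun l : ℤ =>
      Set.Ico ((l : ℝ) * μ) (l * μ + μ) := by
    intro l _ l' _ hll
    rw [Function.onFun, Set.disjoint_left]
    rintro t ht ht'
    apply hll
    have a1 : (l : ℝ) < l' + 1 := by
      by_contra hcon
      push Not at hcon
      have := mul_le_mul_of_nonneg_right hcon hμpos.le
      linarith [ht.1, ht'.2]
    have a2 : (l' : ℝ) < l + 1 := by
      by_contra hcon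
      push Not at hcon
      have := mul_le_mul_of_nonneg_right hcon hμpos.le
      linarith [ht'.1, ht.2]
    have b1 : l < l' + 1 := by exact_mod_cast a1
    have b2 : l' < l + 1 := by exact_mod_cast a2
    omega
  have hsum : ∑ l ∈ J, ∫⁻ t in Set.Ico (l * μ) (l * μ + μ), m t ≤ ∫⁻ t, m t := by
    rw [← lintegral_biUnion_finset hdisj (fun l _ => measurableSet_Ico)]
    exact setLIntegral_le_lintegral _ _
  refine le_trans ?_ hsum
  refine le_trans ?_ (Finset.sum_le_sum hone)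
  rw [← ENNReal.ofReal_sum_of_nonneg fun l _ => by positivity]
  apply ENNReal.ofReal_le_ofReal
  rw [← Finset.sum_div, ← Finset.mul_sum]
  apply div_le_div_of_nonneg_right _ (pow_nonneg hQ0.le C)
  have hcardsum : ∑ l ∈ J, ((V.filter fun v => j v = l).card : ℝ) = (V.card : ℝ) := by
    have := Finset.card_eq_sum_card_image j V
    rw [this]
    push_cast
    rfl
  rcases Nat.eq_zero_or_pos k with hk | hk
  · -- `θ = 0`
    have hθ0 : θ = 0 := by rw [hθ, hk]; simp
    have hVne : V.Nonempty := by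
      rw [hV]
      have h1 := grid_card (d := d) hLpos
      have h2 : (0:ℝ) < ((grid d L).card : ℝ) := lt_of_lt_of_le (by positivity) h1
      exact Finset.card_pos.1 (by exact_mod_cast h2)
    have hJ1 : (1:ℝ) ≤ J.card := by
      have : 0 < J.card := Finset.card_pos.2 (hVne.image _)
      exact_mod_cast this
    rw [hθ0]
    simp only [Real.rpow_zero, mul_zero, Finset.sum_const, nsmul_eq_mul, mul_one]
    rw [hk]
    simp only [Nat.cast_zero, zero_add, div_one, Real.rpow_natCast]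
    nlinarith [mul_nonneg hκ.le (by positivity : (0:ℝ) ≤ h ^ d)]
  have hkpos : (0:ℝ) < k := by exact_mod_cast hk
  have hθpos : 0 < θ := by positivity
  have hθ1 : θ ≤ 1 := by
    rw [hθ, div_le_one hk1]
    linarith
  have h1 := rpow_sum_le J (fun l => ((V.filter fun v => j v = l).card : ℝ))
    (fun _ _ => Nat.cast_nonneg _) (θ := θ) hθpos hθ1
  rw [hcardsum] at h1
  have h2 : (η / 2) ^ ((d : ℝ) * θ) * h ^ (-((d : ℝ) * θ)) ≤ (V.card : ℝ) ^ θ := by
    have h3 := Real.rpow_le_rpow (by positivity) (grid_card (d := d) hLpos) hθpos.le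
    refine le_trans (le_of_eq ?_) h3
    rw [← Real.rpow_natCast, ← Real.rpow_mul (by positivity), hL,
      show (1 / (2 * h / η)) = (η / 2) * h⁻¹ by field_simp,
      Real.mul_rpow (by positivity) (by positivity), Real.inv_rpow hh.le, Real.rpow_neg hh.le]
  have h4 : h ^ ((d : ℝ) / (k + 1)) = h ^ d * h ^ (-((d : ℝ) * θ)) := by
    rw [← Real.rpow_natCast h d, ← Real.rpow_add hh]
    congr 1
    rw [hθ]
    field_simp
    ring
  have h5 : κ * (η / 2) ^ ((d : ℝ) * θ) * h ^ ((d : ℝ) / (k + 1)) ≤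
      κ * h ^ d * ∑ l ∈ J, ((V.filter fun v => j v = l).card : ℝ) ^ θ := by
    calc κ * (η / 2) ^ ((d : ℝ) * θ) * h ^ ((d : ℝ) / (k + 1))
        = κ * h ^ d * ((η / 2) ^ ((d : ℝ) * θ) * h ^ (-((d : ℝ) * θ))) := by rw [h4]; ring
      _ ≤ κ * h ^ d * (V.card : ℝ) ^ θ := by gcongr
      _ ≤ _ := by gcongr
  exact h5

end Pool.Agent.R251.Str
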